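import Pool.Agent.Helper36.T4.Win2
import Pool.Agent.Helper29.T4.Tab

/-!
# T4' (MP_12a1af), block F: the sizes are within `1/1000` of the weights of the table
-/

set_option autoImplicit false

namespace Pool.Agent.Helper97.T4

open Finset Pool.Agent.Helper27.T4 Pool.Agent.Helper5.ET Pool.Agent.Helper36.T4
open Pool.Agent.Helper29.T4

/-- the unit of the table -/
noncomputable def uu (k d : ℕ) : ℝ := 4 / 19 * (bb k : ℝ) * Real.log 1000003 / 2 ^ (d + 3)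

lemma bb_pos (k : ℕ) : (0 : ℝ) < bb k := by
  have h := bb_ge_pow k
  have h2 : 0 < bb k := lt_of_lt_of_le (by norm_num) h
  exact_mod_cast h2

/-- `bb (k + T)` is `(3/2)^T bb k` up to `ε bb k` -/
theorem bb_shift (T : ℕ) : ∀ ε : ℝ, 0 < ε → ∃ k0 : ℕ, ∀ k ≥ k0,
    |(bb (k + T) : ℝ) - (3 / 2) ^ T * bb k| ≤ ε * bb k := by
  induction T with
  | zero =>
    intro ε hε
    refine ⟨0, fun k _ => ?_⟩
    have := bb_pos k
    simp only [add_zero, pow_zero, one_mul, sub_self, abs_zero]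
    positivity
  | succ T ih =>
    intro ε hε
    have hM : (0 : ℝ) < (3 / 2) ^ T + 3 := by positivity
    set ε' : ℝ := min (ε / ((3 / 2) ^ T + 3)) 1 with hε'
    have h0 : 0 < ε' := by rw [hε']; positivity
    have h1 : ε' ≤ 1 := min_le_right _ _
    have h2 : ε' * ((3 / 2) ^ T + 3) ≤ ε := by
      have h3 : ε' ≤ ε / ((3 / 2) ^ T + 3) := min_le_left _ _
      rwa [le_div_iff₀ hM] at h3
    obtain ⟨k1, hk1⟩ := ih ε' h0
    obtain ⟨k2, hk2⟩ := bb_ratio ε' h0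
    refine ⟨max k1 k2, fun k hk => ?_⟩
    have a := hk1 k ((le_max_left _ _).trans hk)
    obtain ⟨b1, b2⟩ := hk2 (k + T) (((le_max_right _ _).trans hk).trans (Nat.le_add_right _ _))
    have hb := bb_pos k
    rw [abs_le] at a
    obtain ⟨a1, a2⟩ := a
    have e1 : k + (T + 1) = k + T + 1 := by ring
    rw [e1, abs_le]
    have p1 : ε' * (bb (k + T) : ℝ) ≤ ε' * (((3 / 2) ^ T + ε') * bb k) :=
      mul_le_mul_of_nonneg_left (by linarith) h0.le
    have p2 : ε' * (((3 / 2) ^ T + ε') * (bb k : ℝ)) ≤ ε' * (((3 / 2) ^ T + 1) * bb k) := by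
      gcongr
    have p3 : ε' * ((3 / 2) ^ T + 3) * (bb k : ℝ) ≤ ε * bb k :=
      mul_le_mul_of_nonneg_right h2 hb.le
    have p4 : (0 : ℝ) ≤ ε' * bb k := by positivity
    have p5 : (0 : ℝ) ≤ ε' * ((3 / 2) ^ T * bb k) := by positivity
    rw [pow_succ]
    constructor
    · nlinarith
    · nlinarith

/-- `Lo (k + t)` is `4/19 (3/2)^t bb k` up to `ε bb k` -/
theorem Lo_shift (t : ℕ) (ε : ℝ) (hε : 0 < ε) : ∃ k0 : ℕ, ∀ k ≥ k0,
    |(Lo (k + t) : ℝ) - 4 / 19 * ((3 / 2) ^ t * bb k)| ≤ ε * bb k := by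
  have hM : (0 : ℝ) < (3 / 2) ^ t + 2 := by positivity
  set ε' : ℝ := min (ε / ((3 / 2) ^ t + 2)) 1 with hε'
  have h0 : 0 < ε' := by rw [hε']; positivity
  have h1 : ε' ≤ 1 := min_le_right _ _
  have h2 : ε' * ((3 / 2) ^ t + 2) ≤ ε := by
    have h3 : ε' ≤ ε / ((3 / 2) ^ t + 2) := min_le_left _ _
    rwa [le_div_iff₀ hM] at h3
  obtain ⟨k1, hk1⟩ := bb_shift t ε' h0
  obtain ⟨k2, hk2⟩ := Lo_err ε' h0
  refine ⟨max k1 k2, fun k hk => ?_⟩
  have a := hk1 k ((le_max_left _ _).trans hk)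
  have b := hk2 (k + t) (((le_max_right _ _).trans hk).trans (Nat.le_add_right _ _))
  have hb := bb_pos k
  rw [abs_le] at a b
  obtain ⟨a1, a2⟩ := a
  obtain ⟨b1, b2⟩ := b
  have p1 : ε' * (bb (k + t) : ℝ) ≤ ε' * (((3 / 2) ^ t + ε') * bb k) :=
    mul_le_mul_of_nonneg_left (by linarith) h0.le
  have p2 : ε' * (((3 / 2) ^ t + ε') * (bb k : ℝ)) ≤ ε' * (((3 / 2) ^ t + 1) * bb k) := by
    gcongr
  have p3 : ε' * ((3 / 2) ^ t + 2) * (bb k : ℝ) ≤ ε * bb k :=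
    mul_le_mul_of_nonneg_right h2 hb.le
  have p4 : (0 : ℝ) ≤ ε' * bb k := by positivity
  rw [abs_le]
  constructor
  · nlinarith
  · nlinarith

lemma uu_wn (k d t : ℕ) (ht : t ≤ d + 3) :
    uu k d * ((Tab.wn d t : ℕ) : ℝ) =
      4 / 19 * ((3 / 2) ^ t * bb k) * Real.log 1000003 := by
  have h1 : ((Tab.wn d t : ℕ) : ℝ) = 2 ^ (d + 3 - t) * 3 ^ t := by
    unfold Tab.wn
    rw [if_pos ht]
    push_cast
    ring
  have h2 : (2 : ℝ) ^ (d + 3) = 2 ^ (d + 3 - t) * 2 ^ t := by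
    rw [← pow_add]
    congr 1
    omega
  rw [h1, uu, h2, div_pow]
  field_simp

/-- one value of `t` -/
lemma win_one (t : ℕ) : ∃ k0 : ℕ, ∀ k ≥ k0,
    |Wk k t - 4 / 19 * ((3 / 2) ^ t * bb k) * Real.log 1000003| ≤
      4 / 19 * ((3 / 2) ^ t * bb k) * Real.log 1000003 / 1000 := by
  obtain ⟨k0, h0⟩ := Lo_shift t (1 / 10000) (by norm_num)
  refine ⟨k0, fun k hk => ?_⟩
  have a := h0 k hk
  have hb := bb_pos k
  set c : ℝ := 4 / 19 * ((3 / 2) ^ t * bb k) with hc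
  have h32 : (1 : ℝ) ≤ (3 / 2) ^ t := one_le_pow₀ (by norm_num)
  have hcb : 4 / 19 * (bb k : ℝ) ≤ c := by
    rw [hc]
    nlinarith
  have hpr0 : (pr 0 : ℝ) = 1000003 := by simp [pr]
  have hl := log_pr (fk (k + t))
  have hl0 := log_pr 0
  have hcl := log_pr_close (fk (k + t)) 0
  rw [hpr0] at hl0 hcl
  set L : ℝ := Real.log (pr (fk (k + t))) with hL
  set L0 : ℝ := Real.log 1000003 with hL0
  have hW : Wk k t = (Lo (k + t) : ℝ) * L := rfl
  have hsplit : Wk k t - c * L0 = ((Lo (k + t) : ℝ) - c) * L + c * (L - L0) := by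
    rw [hW]; ring
  have hc0 : 0 ≤ c := by positivity
  rw [hsplit]
  refine (abs_add_le _ _).trans ?_
  rw [abs_mul, abs_mul, abs_of_nonneg hc0, abs_of_pos (show 0 < L by linarith [hl.1])]
  have q1 : |(Lo (k + t) : ℝ) - c| * L ≤ 1 / 10000 * bb k * 14 := by
    have h5 : (0 : ℝ) ≤ 1 / 10000 * bb k := by positivity
    exact mul_le_mul a hl.2.le (by linarith [hl.1]) h5
  have q2 : c * |L - L0| ≤ c * (1 / 28000) := mul_le_mul_of_nonneg_left hcl hc0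
  have q3 : c * 13 ≤ c * L0 := mul_le_mul_of_nonneg_left hl0.1.le hc0
  linarith

/-- THE WINDOW: the sizes are the weights of the table up to `1/1000` -/
theorem win : ∃ k0 : ℕ, ∀ k ≥ k0, ∀ d ≤ 4, ∀ t ≤ d + 3,
    |Wk k t - uu k d * ((Tab.wn d t : ℕ) : ℝ)| ≤ uu k d * ((Tab.wn d t : ℕ) : ℝ) / 1000 := by
  choose f hf using win_one
  refine ⟨∑ t ∈ range 8, f t, fun k hk d hd t ht => ?_⟩
  have h1 : f t ≤ ∑ t ∈ range 8, f t :=
    Finset.single_le_sum (f := f) (fun _ _ => Nat.zero_le _) (mem_range.2 (by omega))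
  rw [uu_wn k d t ht]
  exact hf t k (h1.trans hk)

end Pool.Agent.Helper97.T4
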